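import Pool.Agent.H45.ConnDec2

open SimpleGraph Pool.Agent.H45.ConnDec Classical

namespace Pool.Agent.Results.MP_7fb2f0_pr.Counter

/-- connected spanning subgraphs of `G` with excess `k`, i.e. with `|V| + k` edges -/
def conn {V : Type} (G : SimpleGraph V) (k : ℤ) : Set (SimpleGraph V) :=
  {H | H ≤ G ∧ (H.edgeSet.ncard : ℤ) = Nat.card V + k ∧ H.Connected}

/-- `p_e(k)` -/
noncomputable def p {V : Type} (G : SimpleGraph V) (e : Sym2 V) (k : ℤ) : ℚ :=
  ({H ∈ conn G k | e ∈ H.edgeSet}.ncard : ℚ) / (conn G k).ncard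

def t : List (Fin 11 × Fin 11) :=
  [(5, 10), (4, 10), (4, 5), (4, 9), (3, 9), (3, 4), (3, 8), (2, 8), (2, 3), (2, 7), (1, 7), (1, 2),
    (1, 6), (0, 6), (0, 1)]

def tm : List ℕ := [1056, 1040, 48, 528, 520, 24, 264, 260, 12, 132, 130, 6, 66, 65, 3]

noncomputable def c (l : List ℕ) : Bool := Nat.beq (it l 10 1) 2047

lemma ok : Ok ((0, 5) :: t) := by unfold Ok; decide +kernel

lemma hc (l : List (Fin 11 × Fin 11)) : (mk l).Connected ↔ c (l.map (mask Fin.val)) :=
  conn_iff' Fin.val_injective (n := 10) (by simp) (fun u => u.2) l 0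

lemma n1 : cnt c tm 10 [] = 243 := by decide +kernel
lemma n2 : cnt c tm 9 [33] = 810 := by decide +kernel
lemma n3 : cnt c tm 11 [] = 405 := by decide +kernel
lemma n4 : cnt c tm 10 [33] = 1323 := by decide +kernel

lemma B (j : ℕ) (k : ℤ) (h : (j : ℤ) = 10 + k) :
    {H ∈ conn (mk ((0, 5) :: t)) k | s(0, 5) ∈ H.edgeSet}.ncard = cnt c tm j [33] ∧
      (conn (mk ((0, 5) :: t)) k).ncard = cnt c tm (j + 1) [] + cnt c tm j [33] := by
  have e1 : tm = t.map (mask Fin.val) := by decide
  have e2 : [33] = [((0, 5) : Fin 11 × Fin 11)].map (mask Fin.val) := by decide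
  have h' : ((j + 1 : ℕ) : ℤ) = 11 + k := by omega
  have c1 := cnt_eq Connected c hc t (j + 1) []
  rw [e1, e2, cnt_eq Connected c hc]
  constructor
  · have := ok.count (j + 1) (fun H => H.Connected ∧ H.Adj 0 5) _ fun l hl => by
      rw [ok.adj hl (p := (0, 5)) (by decide)]; exact decide_eq_true_iff.symm
    rw [List.sublistsLen_succ_cons, List.countP_append, List.countP_map,
      List.countP_eq_zero.2 fun l hl => by
        have : (0, 5) ∉ l := fun h => absurd ((List.mem_sublistsLen.1 hl).1.subset h) (by decide)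
        simp [this]] at this
    convert this using 2
    · ext H
      simp only [conn, Set.mem_ofPred_eq, Nat.card_eq_fintype_card, Fintype.card_fin,
        Nat.cast_ofNat, ← h', Nat.cast_inj, mem_edgeSet, and_assoc]
    · rw [zero_add]; exact List.countP_congr fun l _ => by simp
  · have := ok.count (j + 1) Connected _ fun l _ => decide_eq_true_iff.symm
    rw [List.sublistsLen_succ_cons, List.countP_append, List.countP_map] at this
    rw [List.map_nil] at c1
    rw [c1]
    convert this using 2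
    · ext H
      simp only [conn, Set.mem_ofPred_eq, Nat.card_eq_fintype_card, Fintype.card_fin,
        Nat.cast_ofNat, ← h', Nat.cast_inj]
    all_goals exact List.countP_congr fun l _ => by simp

theorem result : ∃ (n : ℕ) (G : SimpleGraph (Fin n)) (e : Sym2 (Fin n)) (k : ℤ),
    G.Connected ∧ e ∈ G.edgeSet ∧ -1 ≤ k ∧ k < (G.edgeSet.ncard : ℤ) - n ∧
      p G e (k + 1) < p G e k := by
  refine ⟨11, mk ((0, 5) :: t), s(0, 5), -1, (hc _).2 (by decide +kernel),
    (ok.adj (.refl _) (p := (0, 5)) (by decide)).2 (by decide), le_rfl, ?_, ?_⟩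
  · rw [ok.ncard]; decide
  · rw [p, p, (B 10 _ rfl).1, (B 10 _ rfl).2, (B 9 _ rfl).1, (B 9 _ rfl).2, n1, n2, n3, n4]
    norm_num

end Pool.Agent.Results.MP_7fb2f0_pr.Counter
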